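import Pool.Agent.Q157.OM.Stm
import Pool.Agent.Q157.OM.All

/-!
# Non-collectable patterns do not matter if no two of the collectable ones are harmonious

If `Ps` is a nonempty set of collectable `r`-patterns, no two of which have the same composition, and
`Qs` is any set of non-collectable `r`-patterns, then the largest `Ps`-clique in the random ordered
`r`-matching is, with probability tending to `1`, at least `c` times the largest `Ps ∪ Qs`-clique; both
have size of order `n^(1/r)`.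
-/

set_option autoImplicit false

namespace Pool.Agent.Results.MP_0c785e_pr.NonHarmoniousCollectable

open Finset Filter Topology Pool.Agent.Q157.OM

theorem result (r : ℕ) (hr : 1 ≤ r) (Ps Qs : Set (List Letter))
    (hPs : ∀ P ∈ Ps, IsPattern r P ∧ Collectable r P)
    (hQs : ∀ Q ∈ Qs, IsPattern r Q ∧ ¬ Collectable r Q) (hne : Ps.Nonempty)
    (hnh : ∀ P ∈ Ps, ∀ P' ∈ Ps, ¬ Harmonious r P P') :
    ∃ c : ℝ, 0 < c ∧
      Tendsto (fun n : ℕ => prob r n (fun M => c * (z (Ps ∪ Qs) M : ℝ) ≤ (z Ps M : ℝ)))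
        atTop (𝓝 1) := by
  obtain ⟨P, hP⟩ := hne
  have h3 : ∀ R ∈ Ps ∪ Qs, IsPattern r R := by
    rintro R (h | h)
    · exact (hPs R h).1
    · exact (hQs R h).1
  have h4 : ∀ R ∈ Ps ∪ Qs, ∀ S ∈ Ps ∪ Qs, ¬ Harmonious r R S := by
    rintro R (h | h) S (h' | h') hRS
    · exact hnh R h S h' hRS
    · exact (hQs S h').2 hRS.2.2.1
    · exact (hQs R h).2 hRS.2.1
    · exact (hQs R h).2 hRS.2.1
  obtain ⟨C, hC0, hC⟩ := a_up r (Ps ∪ Qs) hr h3 h4
  obtain ⟨c, hc0, hc⟩ := a_low r P Ps hr (hPs P hP).2 hP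
  refine ⟨c / C, by positivity, ?_⟩
  have hlow : Tendsto (fun n : ℕ =>
      1 - prob r n (fun M => ¬ (c * (n : ℝ) ^ (1 / r : ℝ) ≤ (z Ps M : ℝ))) -
        prob r n (fun M => ¬ ((z (Ps ∪ Qs) M : ℝ) ≤ C * (n : ℝ) ^ (1 / r : ℝ)))) atTop (𝓝 1) := by
    have := (tendsto_const_nhds (x := (1 : ℝ)) (f := (atTop : Filter ℕ))).sub hc |>.sub hC
    simpa using this
  refine tendsto_of_tendsto_of_tendsto_of_le_of_le hlow
    (tendsto_const_nhds (x := (1 : ℝ)) (f := (atTop : Filter ℕ))) ?_ ?_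
  · intro n
    have h5 := Pool.Agent.Q121.OM.prob_and a_rec a_num r n hr
      (fun M => c * (n : ℝ) ^ (1 / r : ℝ) ≤ (z Ps M : ℝ))
      (fun M => (z (Ps ∪ Qs) M : ℝ) ≤ C * (n : ℝ) ^ (1 / r : ℝ))
    refine h5.trans ?_
    classical
    beta_reduce
    rw [Pool.Agent.Q121.OM.prob_eq' a_rec r n hr, Pool.Agent.Q121.OM.prob_eq' a_rec r n hr]
    refine div_le_div_of_nonneg_right ?_ (by positivity)
    rw [Nat.cast_le]
    refine Finset.card_le_card ?_
    intro M hM
    rw [Finset.mem_filter] at hM ⊢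
    refine ⟨hM.1, ?_⟩
    obtain ⟨-, h6, h7⟩ := hM
    calc c / C * (z (Ps ∪ Qs) M : ℝ) ≤ c / C * (C * (n : ℝ) ^ (1 / r : ℝ)) := by gcongr
      _ = c * (n : ℝ) ^ (1 / r : ℝ) := by field_simp
      _ ≤ _ := h6
  · intro n
    exact Pool.Agent.Q121.OM.prob_le_one a_rec r n hr _

end Pool.Agent.Results.MP_0c785e_pr.NonHarmoniousCollectable
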